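import Pool.Agent.H27.G.R_seed8.H932R4.MO.Stmts

set_option autoImplicit false

open Finset Filter Topology

namespace Pool.Agent.H992R3.MO

open Pool.Agent.H932R4.MO

lemma ev2 (c κ : ℝ) (hc : 0 < c) (hκ : 0 < κ) :
    ∀ᶠ L : ℝ in atTop, Real.exp (-(c * L ^ ((1:ℝ)/5))) ≤ κ / L ^ 3 := by
  have h1 := Real.tendsto_pow_mul_exp_neg_atTop_nhds_zero 15
  have h2 : Tendsto (fun L : ℝ => c * L ^ ((1:ℝ)/5)) atTop atTop :=
    (tendsto_rpow_atTop (by norm_num)).const_mul_atTop hc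
  have h3 := h1.comp h2
  have h4 : ∀ᶠ L : ℝ in atTop, (c * L ^ ((1:ℝ)/5)) ^ 15 * Real.exp (-(c * L ^ ((1:ℝ)/5))) < κ * c ^ 15 := by
    have := h3.eventually (gt_mem_nhds (show (0:ℝ) < κ * c ^ 15 by positivity))
    exact this
  filter_upwards [h4, eventually_ge_atTop (1:ℝ)] with L hL hL1
  have hL0 : 0 < L := by linarith
  have h5 : (c * L ^ ((1:ℝ)/5)) ^ 15 = c ^ 15 * L ^ 3 := by
    rw [mul_pow, ← Real.rpow_natCast (L ^ ((1:ℝ)/5)) 15, ← Real.rpow_mul hL0.le]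
    norm_num
  rw [h5] at hL
  rw [le_div_iff₀ (by positivity)]
  have hc15 : 0 < c ^ 15 := by positivity
  by_contra hcon
  push Not at hcon
  have : κ * c ^ 15 < (Real.exp (-(c * L ^ ((1:ℝ)/5))) * L ^ 3) * c ^ 15 :=
    mul_lt_mul_of_pos_right hcon hc15
  nlinarith

theorem t5b : T5b := by
  intro θ κ hθ hθ1 hκ N₀ hN₀
  have hlog3 : 1 < Real.log 3 := by
    rw [Real.lt_log_iff_exp_lt (by norm_num)]
    have := Real.exp_one_lt_d9
    linarith
  obtain ⟨r, hr⟩ : ∃ r : ℝ, r = 1 / (Real.log 3) ^ 2 := ⟨_, rfl⟩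
  have hr0 : 0 < r := by rw [hr]; positivity
  have hr1 : r < 1 := by
    rw [hr, div_lt_one (by positivity)]
    nlinarith
  obtain ⟨a, ha⟩ : ∃ a : ℝ, a = - Real.log r := ⟨_, rfl⟩
  have ha0 : 0 < a := by
    rw [ha]
    have := Real.log_neg hr0 hr1
    linarith
  have E1 : ∀ᶠ L : ℝ in atTop, L ^ (-((1:ℝ)/5)) ≤ κ := by
    have := (tendsto_rpow_neg_atTop (show (0:ℝ) < 1/5 by norm_num)).eventually
      (gt_mem_nhds hκ)
    filter_upwards [this] with L hL using hL.le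
  have E2 := ev2 (a * (θ / 2)) κ (by positivity) hκ
  have E3 : ∀ᶠ L : ℝ in atTop, L ^ (-((1:ℝ)/5)) ≤ κ ∧
      Real.exp (-(a * (θ / 2) * L ^ ((1:ℝ)/5))) ≤ κ / L ^ 3 ∧ 1 ≤ L := by
    filter_upwards [E1, E2, eventually_ge_atTop (1:ℝ)] with L h1 h2 h3 using ⟨h1, h2, h3⟩
  have E4 : ∀ᶠ X : ℕ in atTop, (Real.log X) ^ (-((1:ℝ)/5)) ≤ κ ∧
      Real.exp (-(a * (θ / 2) * (Real.log X) ^ ((1:ℝ)/5))) ≤ κ / (Real.log X) ^ 3 ∧
        1 ≤ Real.log X :=
    (Real.tendsto_log_atTop.comp tendsto_natCast_atTop_atTop).eventually E3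
  obtain ⟨X₁, hX₁⟩ := eventually_atTop.1 E4
  refine ⟨max X₁ 3, le_max_right _ _, ?_⟩
  intro X n hX hn1 hn2 hq
  obtain ⟨e1, e2, e3⟩ := hX₁ X ((le_max_left _ _).trans hX)
  have hX3 : 3 ≤ X := (le_max_right _ _).trans hX
  obtain ⟨L, hL⟩ : ∃ L : ℝ, L = Real.log X := ⟨_, rfl⟩
  rw [← hL] at e1 e2 e3 ⊢
  have hL0 : 0 < L := by linarith
  unfold bw
  split_ifs with hsq
  swap
  · positivity
  obtain ⟨hsq, hp⟩ := hsq
  have hXpos : (0:ℝ) < X := by exact_mod_cast (by omega : 0 < X)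
  have hn0 : n ≠ 0 := by omega
  -- the factors
  have hlogp : ∀ p ∈ n.primeFactors, Real.log 3 ≤ Real.log p := by
    intro p hpm
    apply Real.log_le_log (by norm_num)
    exact_mod_cast hN₀.trans (hp p hpm)
  have hf0 : ∀ p ∈ n.primeFactors, 0 ≤ 1 / (Real.log p) ^ 2 := by
    intro p hpm; positivity
  have hfr : ∀ p ∈ n.primeFactors, 1 / (Real.log p) ^ 2 ≤ r := by
    intro p hpm
    rw [hr]
    apply one_div_le_one_div_of_le (by positivity)
    exact pow_le_pow_left₀ (by linarith) (hlogp p hpm) 2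
  have hf1 : ∀ p ∈ n.primeFactors, 1 / (Real.log p) ^ 2 ≤ 1 := fun p hpm =>
    (hfr p hpm).trans hr1.le
  obtain ⟨T, hT⟩ : ∃ T : ℝ, T = L ^ ((4:ℝ)/5) := ⟨_, rfl⟩
  have hT0 : 0 < T := by rw [hT]; positivity
  classical
  set B := n.primeFactors.filter (fun p : ℕ => T ≤ Real.log p) with hB
  rcases Nat.lt_or_ge 1 B.card with h1 | h1
  · obtain ⟨p1, hp1, p2, hp2, hne⟩ := Finset.one_lt_card.1 h1
    rw [hB, Finset.mem_filter] at hp1 hp2
    have hsub : ({p1, p2} : Finset ℕ) ⊆ n.primeFactors := by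
      intro x hx
      simp only [Finset.mem_insert, Finset.mem_singleton] at hx
      rcases hx with rfl | rfl
      · exact hp1.1
      · exact hp2.1
    rw [← Finset.prod_sdiff hsub, Finset.prod_pair hne]
    have g1 : ∏ p ∈ n.primeFactors \ {p1, p2}, 1 / (Real.log p) ^ 2 ≤ 1 :=
      Finset.prod_le_one (fun p hpm => hf0 p (Finset.mem_sdiff.1 hpm).1)
        (fun p hpm => hf1 p (Finset.mem_sdiff.1 hpm).1)
    have g2 : ∀ p : ℕ, T ≤ Real.log p → 1 / (Real.log p) ^ 2 ≤ 1 / T ^ 2 := by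
      intro p hpT
      apply one_div_le_one_div_of_le (by positivity)
      exact pow_le_pow_left₀ hT0.le hpT 2
    have g3 : 1 / (Real.log p1) ^ 2 * (1 / (Real.log p2) ^ 2) ≤ 1 / T ^ 2 * (1 / T ^ 2) :=
      mul_le_mul (g2 p1 hp1.2) (g2 p2 hp2.2) (by positivity) (by positivity)
    have g4 : 1 / T ^ 2 * (1 / T ^ 2) = L ^ (-((1:ℝ)/5)) / L ^ 3 := by
      have : T ^ 4 = L ^ 3 * L ^ ((1:ℝ)/5) := by
        rw [hT, ← Real.rpow_natCast (L ^ ((4:ℝ)/5)) 4, ← Real.rpow_mul hL0.le,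
          ← Real.rpow_natCast L 3, ← Real.rpow_add hL0]
        norm_num
      rw [Real.rpow_neg hL0.le]
      have hl : L ^ ((1:ℝ)/5) ≠ 0 := (Real.rpow_pos_of_pos hL0 _).ne'
      rw [div_mul_div_comm, ← pow_add, this]
      field_simp
    calc (∏ p ∈ n.primeFactors \ {p1, p2}, 1 / (Real.log p) ^ 2) *
          (1 / (Real.log p1) ^ 2 * (1 / (Real.log p2) ^ 2))
        ≤ 1 * (1 / T ^ 2 * (1 / T ^ 2)) := mul_le_mul g1 g3 (by positivity) (by norm_num)
      _ = L ^ (-((1:ℝ)/5)) / L ^ 3 := by rw [one_mul, g4]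
      _ ≤ κ / L ^ 3 := by gcongr
  · have hBsub : B ⊆ n.primeFactors := Finset.filter_subset _ _
    rw [← Finset.prod_sdiff hBsub]
    set R := n.primeFactors \ B with hR
    have g1 : ∏ p ∈ B, 1 / (Real.log p) ^ 2 ≤ 1 :=
      Finset.prod_le_one (fun p hpm => hf0 p (hBsub hpm)) (fun p hpm => hf1 p (hBsub hpm))
    have g2 : ∏ p ∈ R, 1 / (Real.log (p:ℝ)) ^ 2 ≤ r ^ R.card :=
      (Finset.prod_le_prod (fun p hpm => hf0 p (Finset.mem_sdiff.1 hpm).1)
        (fun p hpm => hfr p (Finset.mem_sdiff.1 hpm).1)).trans (by rw [Finset.prod_const])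
    have hprod : (∏ p ∈ R, (p:ℝ)) * ∏ p ∈ B, (p:ℝ) = n := by
      rw [hR, Finset.prod_sdiff hBsub]
      have := congrArg (Nat.cast : ℕ → ℝ) (Nat.prod_primeFactors_of_squarefree hsq)
      rw [← this]
      push_cast
      rfl
    have hRgt : (X:ℝ) ^ (θ / 2) < ∏ p ∈ R, (p:ℝ) := by
      rcases Nat.lt_or_ge 0 B.card with h0 | h0
      · obtain ⟨q, hqB⟩ := Finset.card_eq_one.1 (by omega : B.card = 1)
        have hqm : q ∈ n.primeFactors := hBsub (by rw [hqB]; simp)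
        have hq0 : (0:ℝ) < q := by
          exact_mod_cast (Nat.prime_of_mem_primeFactors hqm).pos
        have := hq q hqm
        rw [hqB, Finset.prod_singleton] at hprod
        rwa [← hprod, mul_div_assoc, div_self hq0.ne', mul_one] at this
      · have hB0 : B = ∅ := Finset.card_eq_zero.1 (by omega)
        rw [hB0, Finset.prod_empty, mul_one] at hprod
        rw [hprod]
        have h5 : (X:ℝ) ^ (θ / 2) ≤ (X:ℝ) ^ (1:ℝ) :=
          Real.rpow_le_rpow_of_exponent_le (by exact_mod_cast (by omega : 1 ≤ X)) (by linarith)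
        rw [Real.rpow_one] at h5
        have h6 : (X:ℝ) < n := by exact_mod_cast hn1
        linarith
    have hlogR : θ / 2 * L < ∑ p ∈ R, Real.log p := by
      have h7 : Real.log (∏ p ∈ R, (p:ℝ)) = ∑ p ∈ R, Real.log p := by
        apply Real.log_prod
        intro p hpm
        have := (Nat.prime_of_mem_primeFactors (Finset.mem_sdiff.1 hpm).1).pos
        exact_mod_cast this.ne'
      rw [← h7, hL, ← Real.log_rpow hXpos]
      exact Real.log_lt_log (Real.rpow_pos_of_pos hXpos _) hRgt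
    have hsumle : ∑ p ∈ R, Real.log (p:ℝ) ≤ R.card * T := by
      have : ∀ p ∈ R, Real.log (p:ℝ) ≤ T := by
        intro p hpm
        rw [hR, Finset.mem_sdiff, hB, Finset.mem_filter, not_and, not_le] at hpm
        exact (hpm.2 hpm.1).le
      have h8 := Finset.sum_le_card_nsmul R _ T this
      rwa [nsmul_eq_mul] at h8
    have hcard : θ / 2 * L ^ ((1:ℝ)/5) < R.card := by
      have h9 : L = L ^ ((1:ℝ)/5) * T := by
        rw [hT, ← Real.rpow_add hL0]
        norm_num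
      have h10 : θ / 2 * L ^ ((1:ℝ)/5) * T < R.card * T := by
        calc θ / 2 * L ^ ((1:ℝ)/5) * T = θ / 2 * (L ^ ((1:ℝ)/5) * T) := by ring
          _ = θ / 2 * L := by rw [← h9]
          _ < R.card * T := hlogR.trans_le hsumle
      exact lt_of_mul_lt_mul_right h10 hT0.le
    have hpow : r ^ R.card ≤ Real.exp (-(a * (θ / 2) * L ^ ((1:ℝ)/5))) := by
      have h11 : r ^ R.card = Real.exp (-(a * R.card)) := by
        rw [ha, ← Real.rpow_natCast, Real.rpow_def_of_pos hr0]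
        congr 1
        ring
      rw [h11]
      apply Real.exp_le_exp.2
      have : a * (θ / 2 * L ^ ((1:ℝ)/5)) ≤ a * R.card := mul_le_mul_of_nonneg_left hcard.le ha0.le
      linarith
    calc (∏ p ∈ R, 1 / (Real.log (p:ℝ)) ^ 2) * ∏ p ∈ B, 1 / (Real.log (p:ℝ)) ^ 2
        ≤ r ^ R.card * 1 := mul_le_mul g2 g1
          (Finset.prod_nonneg fun p hpm => hf0 p (hBsub hpm)) (by positivity)
      _ ≤ κ / L ^ 3 := by rw [mul_one]; exact hpow.trans e2

end Pool.Agent.H992R3.MO
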